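import Pool.Agent.Helper89.UB.Stmts

set_option autoImplicit false

open Finset

namespace Pool.Agent.Helper89.UB

open scoped Classical in
theorem ins_mem {n m : ℕ} (E : Finset (Finset (Fin n))) (W : Finset (Fin n))
    (c : Fin m → Finset (Fin n)) (hc : c ∈ OP E W m) (v : Fin n) (hv : v ∉ W) (i : Fin m)
    (hi : Al E (insert v (c i))) :
    Function.update c i (insert v (c i)) ∈ OP E (insert v W) m := by
  unfold OP at hc ⊢
  rw [mem_filter] at hc ⊢
  obtain ⟨-, h1, h2, h3, h4⟩ := hc
  have hvc : ∀ k, v ∉ c k := fun k hk => hv ((h3 v).2 ⟨k, hk⟩)
  refine ⟨mem_univ _, ?_, ?_, ?_, ?_⟩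
  · intro j
    by_cases hj : j = i
    · subst hj
      rw [Function.update_self]
      exact insert_nonempty v _
    · rw [Function.update_of_ne hj]
      exact h1 j
  · intro j k hjk
    by_cases hj : j = i
    · subst hj
      rw [Function.update_self, Function.update_of_ne (Ne.symm hjk), disjoint_insert_left]
      exact ⟨hvc k, h2 j k hjk⟩
    · by_cases hk : k = i
      · subst hk
        rw [Function.update_self, Function.update_of_ne hj, disjoint_insert_right]
        exact ⟨hvc j, h2 j k hjk⟩
      · rw [Function.update_of_ne hj, Function.update_of_ne hk]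
        exact h2 j k hjk
  · intro x
    rw [mem_insert]
    constructor
    · rintro (hx | hx)
      · refine ⟨i, ?_⟩
        rw [Function.update_self, hx]
        exact mem_insert_self v _
      · obtain ⟨j, hj⟩ := (h3 x).1 hx
        refine ⟨j, ?_⟩
        by_cases hji : j = i
        · subst hji
          rw [Function.update_self]
          exact mem_insert_of_mem hj
        · rw [Function.update_of_ne hji]
          exact hj
    · rintro ⟨j, hj⟩
      by_cases hji : j = i
      · subst hji
        rw [Function.update_self, mem_insert] at hj
        rcases hj with hj | hj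
        · exact Or.inl hj
        · exact Or.inr ((h3 x).2 ⟨j, hj⟩)
      · rw [Function.update_of_ne hji] at hj
        exact Or.inr ((h3 x).2 ⟨j, hj⟩)
  · intro j
    by_cases hj : j = i
    · subst hj
      rw [Function.update_self]
      exact hi
    · rw [Function.update_of_ne hj]
      exact h4 j

open scoped Classical in
theorem ins_one {n D m : ℕ} (E : Finset (Finset (Fin n))) (hE : InsB E D) (W : Finset (Fin n))
    (v : Fin n) (hv : v ∉ W) : (m - D) * sur E W m ≤ sur E (insert v W) m := by
  have hvc : ∀ c ∈ OP E W m, ∀ k, v ∉ c k := by
    intro c hc k hk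
    unfold OP at hc
    rw [mem_filter] at hc
    exact hv ((hc.2.2.2.1 v).2 ⟨k, hk⟩)
  let T : Finset (Σ _ : Fin m → Finset (Fin n), Fin m) :=
    (OP E W m).sigma (fun c => univ.filter (fun i => Al E (insert v (c i))))
  have hT : (m - D) * sur E W m ≤ T.card := by
    show (m - D) * (OP E W m).card ≤ ((OP E W m).sigma _).card
    rw [card_sigma, mul_comm, ← smul_eq_mul]
    apply card_nsmul_le_sum
    intro c hc
    have h1 := hE W m c hc v hv
    have h2 := card_filter_add_card_filter_not (s := (univ : Finset (Fin m)))
      (fun i => Al E (insert v (c i)))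
    rw [card_univ, Fintype.card_fin] at h2
    omega
  refine hT.trans ?_
  apply card_le_card_of_injOn (fun x => Function.update x.1 x.2 (insert v (x.1 x.2)))
  · intro x hx
    have hx' := mem_sigma.1 (mem_coe.1 hx)
    exact mem_coe.2 (ins_mem E W x.1 hx'.1 v hv x.2 (mem_filter.1 hx'.2).2)
  · rintro ⟨c, i⟩ hx ⟨d, j⟩ hy hxy
    have hc := (mem_sigma.1 (mem_coe.1 hx)).1
    have hd := (mem_sigma.1 (mem_coe.1 hy)).1
    have hxy' : Function.update c i (insert v (c i)) = Function.update d j (insert v (d j)) := hxy
    have hij : i = j := by
      by_contra hne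
      have h1 := congrFun hxy' i
      rw [Function.update_self, Function.update_of_ne hne] at h1
      exact hvc d hd i (h1 ▸ mem_insert_self v _)
    subst hij
    have hcd : c = d := by
      funext k
      by_cases hk : k = i
      · subst hk
        have h1 := congrFun hxy' k
        rw [Function.update_self, Function.update_self] at h1
        rw [← erase_insert (hvc c hc k), ← erase_insert (hvc d hd k), h1]
      · have h1 := congrFun hxy' k
        rw [Function.update_of_ne hk, Function.update_of_ne hk] at h1
        exact h1
    subst hcd
    rfl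

theorem st_INS : ST_INS := by
  intro n D m E hE W U
  classical
  induction U using Finset.induction_on with
  | empty =>
    intro _
    rw [card_empty, pow_zero, one_mul, union_empty]
  | insert v U hvU ih =>
    intro hd
    rw [disjoint_insert_right] at hd
    have h1 := ih hd.2
    have h2 := ins_one (m := m) E hE (W ∪ U) v (by
      rw [mem_union]
      rintro (h | h)
      · exact hd.1 h
      · exact hvU h)
    have h3 : W ∪ insert v U = insert v (W ∪ U) := union_insert v W U
    rw [h3, card_insert_of_notMem hvU, pow_succ, mul_comm ((m - D) ^ U.card), mul_assoc]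
    exact (Nat.mul_le_mul_left _ h1).trans h2

end Pool.Agent.Helper89.UB
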